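import Pool.Agent.TH939.J1422.B

/-! Boundedness of `LL`: the case of characters of the class group. -/

set_option autoImplicit false
open Filter Topology NumberField NumberField.InfinitePlace NumberField.Units
open NumberField.Units.dirichletUnitTheorem Module nonZeroDivisors Ideal

namespace Pool.Agent.TH939.J1422

open Pool.Agent.TH716.TW Pool.Agent.H484R2 Pool.Agent.W45.Ch

variable (K : Type) [Field K] [NumberField K]

/-- the number of ideals of given norm in a class -/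
noncomputable def cnt (C : ClassGroup (𝓞 K)) (n : ℕ) : ℕ :=
  Nat.card {I : (Ideal (𝓞 K))⁰ // absNorm I.1 = n ∧ ClassGroup.mk0 I = C}

lemma sum_cnt (C : ClassGroup (𝓞 K)) (n : ℕ) : ∑ k ∈ Finset.Icc 1 n, cnt K C k =
    Nat.card {I : (Ideal (𝓞 K))⁰ // absNorm I.1 ≤ n ∧ ClassGroup.mk0 I = C} := by
  classical
  have hfin0 : {I : (Ideal (𝓞 K))⁰ | absNorm I.1 ≤ n}.Finite :=
    Ideal.finite_setOfPred_absNorm_le₀ n
  have hfin : {I : (Ideal (𝓞 K))⁰ | absNorm I.1 ≤ n ∧ ClassGroup.mk0 I = C}.Finite :=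
    hfin0.subset fun I hI => hI.1
  have hmem : ∀ I : (Ideal (𝓞 K))⁰, I ∈ hfin.toFinset ↔
      absNorm I.1 ≤ n ∧ ClassGroup.mk0 I = C := by
    intro I
    rw [Set.Finite.mem_toFinset]
    rfl
  rw [Nat.subtype_card hfin.toFinset hmem,
    Finset.card_eq_sum_card_fiberwise (f := fun I : (Ideal (𝓞 K))⁰ => absNorm I.1)
      (t := Finset.Icc 1 n)]
  · refine Finset.sum_congr rfl fun k hk => ?_
    rw [Finset.mem_Icc] at hk
    unfold cnt
    refine Nat.subtype_card _ fun I => ?_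
    rw [Finset.mem_filter, hmem]
    constructor
    · rintro ⟨⟨_, h2⟩, h3⟩
      exact ⟨h3, h2⟩
    · rintro ⟨h1, h2⟩
      exact ⟨⟨by omega, h2⟩, h1⟩
  · intro I hI
    have h1 := (hmem I).mp hI
    have h2 : absNorm I.1 ≠ 0 := absNorm_ne_zero_of_nonZeroDivisors I
    simp only [Finset.coe_Icc, Set.mem_Icc]
    omega

/-- the density of the ideals of a class -/
noncomputable def kap : ℝ := (2 ^ nrRealPlaces K * (2 * Real.pi) ^ nrComplexPlaces K *
  regulator K) / (torsionOrder K * Real.sqrt |discr K|)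

lemma tendsto_cnt (C : ClassGroup (𝓞 K)) :
    Tendsto (fun n : ℕ => (∑ k ∈ Finset.Icc 1 n, (cnt K C k : ℝ)) / (n : ℝ)) atTop
      (𝓝 (kap K)) := by
  have h := (NumberField.Ideal.tendsto_norm_le_and_mk_eq_div_atTop K C).comp
    tendsto_natCast_atTop_atTop
  refine h.congr fun n => ?_
  rw [← Nat.cast_sum, sum_cnt]
  simp only [Function.comp_apply, Nat.cast_le]

lemma LSeries_cnt (C : ClassGroup (𝓞 K)) {s : ℂ} (hs : 1 < s.re) :
    LSeries (fun n => ((cnt K C n : ℝ) : ℂ)) s = GC K (1 : DirichletCharacter ℂ 1) C s := by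
  classical
  have h0 := hasSum_class K (1 : DirichletCharacter ℂ 1) (rep K C).1 (rep K C).2
    (MulChar.one_apply (isUnit_of_subsingleton _)) C (rep_spec K C) hs
  have h := h0.tsum_fiberwise (fun I : NZI K => absNorm I.1)
  unfold GC
  rw [← h.tsum_eq, LSeries]
  refine tsum_congr fun n => ?_
  by_cases hn : n = 0
  · subst hn
    rw [LSeries.term_zero]
    have : ((fun I : NZI K => absNorm I.1) ⁻¹' {0} : Set (NZI K)) = ∅ := by
      ext I
      simp only [Set.mem_preimage, Set.mem_singleton_iff, Set.mem_empty_iff_false, iff_false]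
      rw [absNorm_eq_zero_iff]
      exact I.2
    rw [this]
    simp
  · rw [LSeries.term_of_ne_zero hn]
    have hfin2 : Finite ((fun I : NZI K => absNorm I.1) ⁻¹' {n} : Set (NZI K)) := by
      have hfin : Finite {I : Ideal (𝓞 K) // absNorm I = n} :=
        (Ideal.finite_setOfPred_absNorm_eq (S := 𝓞 K) n).to_subtype
      exact Finite.of_injective
        (β := {I : Ideal (𝓞 K) // absNorm I = n})
        (fun I => ⟨I.1.1, I.2⟩) (fun I I' h => Subtype.ext (Subtype.ext
          (congrArg (fun x : {I : Ideal (𝓞 K) // absNorm I = n} => x.1) h)))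
    have : Fintype ((fun I : NZI K => absNorm I.1) ⁻¹' {n} : Set (NZI K)) := Fintype.ofFinite _
    have h1 : ∑' b : ((fun I : NZI K => absNorm I.1) ⁻¹' {n} : Set (NZI K)),
        (if cls K (b : NZI K) = C then (1 : DirichletCharacter ℂ 1)
          ((absNorm (b : NZI K).1 : ℕ) : ZMod 1) * (absNorm (b : NZI K).1 : ℂ) ^ (-s) else 0) =
        ∑ b : ((fun I : NZI K => absNorm I.1) ⁻¹' {n} : Set (NZI K)),
          (if cls K (b : NZI K) = C then (n : ℂ) ^ (-s) else 0) := by
      rw [tsum_fintype]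
      refine Finset.sum_congr rfl fun b _ => ?_
      have : absNorm (b : NZI K).1 = n := b.2
      rw [this, MulChar.one_apply (by exact isUnit_of_subsingleton _), one_mul]
    rw [h1, Finset.sum_ite, Finset.sum_const_zero, add_zero, Finset.sum_const]
    have h2 : cnt K C n = (Finset.univ.filter
        (fun b : ((fun I : NZI K => absNorm I.1) ⁻¹' {n} : Set (NZI K)) =>
          cls K (b : NZI K) = C)).card := by
      unfold cnt
      rw [← Nat.subtype_card _ (fun x => Finset.mem_filter_univ x)]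
      exact Nat.card_congr
        { toFun := fun I => ⟨⟨⟨I.1.1, nonZeroDivisors.ne_zero I.1.2⟩, I.2.1⟩, I.2.2⟩
          invFun := fun I => ⟨⟨I.1.1.1, mem_nonZeroDivisors_of_ne_zero I.1.1.2⟩, I.1.2, I.2⟩
          left_inv := fun I => rfl
          right_inv := fun I => rfl }
    rw [h2, nsmul_eq_mul, Complex.cpow_neg, div_eq_mul_inv]
    simp

lemma tendsto_GC (C : ClassGroup (𝓞 K)) :
    Tendsto (fun s : ℝ => ((s : ℂ) - 1) * GC K (1 : DirichletCharacter ℂ 1) C s) (𝓝[>] 1)
      (𝓝 ((kap K : ℝ) : ℂ)) := by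
  have h := LSeries_tendsto_sub_mul_nhds_one_of_tendsto_sum_div_and_nonneg
    (fun n => (cnt K C n : ℝ)) (tendsto_cnt K C) (fun n => Nat.cast_nonneg _)
  refine h.congr' ?_
  filter_upwards [eventually_mem_nhdsWithin] with s hs
  rw [LSeries_cnt K C (by simpa using hs)]

lemma exists_cont (C : ClassGroup (𝓞 K)) : ∃ h : ℂ → ℂ, AnalyticAt ℂ h 1 ∧ h 1 = (kap K : ℝ) ∧
    ∀ᶠ z in 𝓝 (1 : ℂ), 1 < z.re → h z = (z - 1) * GC K (1 : DirichletCharacter ℂ 1) C z := by
  obtain ⟨g, hg1, hg2⟩ := (dataJ K (rep K C).1 (rep K C).2).continuation 0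
  rw [Complex.ofReal_zero, zero_mul, add_zero] at hg1 hg2
  have hJ0 : (absNorm (rep K C).1 : ℂ) ≠ 0 := by
    have : absNorm (rep K C).1 ≠ 0 := by
      rw [Ne, absNorm_eq_zero_iff]
      exact (rep K C).2
    exact_mod_cast this
  set h : ℂ → ℂ := fun z => (absNorm (rep K C).1 : ℂ) ^ z / (torsionOrder K : ℂ) * g z with hdef
  have han : AnalyticAt ℂ h 1 := by
    refine AnalyticAt.mul ?_ hg1
    refine AnalyticAt.div ?_ analyticAt_const ?_
    · have hd : Differentiable ℂ fun z : ℂ => (absNorm (rep K C).1 : ℂ) ^ z := by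
        intro z
        exact DifferentiableAt.const_cpow differentiableAt_id (Or.inl hJ0)
      exact hd.analyticAt _
    · exact_mod_cast torsionOrder_ne_zero K
  have heq : ∀ᶠ z in 𝓝 (1 : ℂ), 1 < z.re →
      h z = (z - 1) * GC K (1 : DirichletCharacter ℂ 1) C z := by
    filter_upwards [hg2] with z hz hz1
    rw [hdef]
    simp only
    rw [hz hz1]
    unfold GC
    have hW : ∀ a, Wt K (1 : DirichletCharacter ℂ 1) (rep K C).1
        (xJ K (rep K C).1 (rep K C).2 a : 𝓞 K) = 1 := by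
      intro a
      unfold Wt
      exact MulChar.one_apply (isUnit_of_subsingleton _)
    simp only [hW, one_mul]
    ring
  refine ⟨h, han, ?_, heq⟩
  have ht1 : Tendsto (fun s : ℝ => (s : ℂ)) (𝓝[>] 1) (𝓝 (1 : ℂ)) := by
    have : Tendsto (fun s : ℝ => (s : ℂ)) (𝓝 1) (𝓝 ((1 : ℝ) : ℂ)) :=
      (Complex.continuous_ofReal.tendsto 1)
    rw [Complex.ofReal_one] at this
    exact this.mono_left nhdsWithin_le_nhds
  have ht2 : Tendsto (fun s : ℝ => h (s : ℂ)) (𝓝[>] 1) (𝓝 (h 1)) :=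
    han.continuousAt.tendsto.comp ht1
  have ht3 : Tendsto (fun s : ℝ => h (s : ℂ)) (𝓝[>] 1) (𝓝 ((kap K : ℝ) : ℂ)) := by
    refine (tendsto_GC K C).congr' ?_
    filter_upwards [eventually_mem_nhdsWithin, ht1.eventually heq] with s hs hs2
    exact (hs2 (by simpa using hs)).symm
  exact tendsto_nhds_unique ht2 ht3

/-- the first case -/
lemma case_one (ψ : ClassGroup (𝓞 K) →* ℂ) (hψ : ψ ≠ 1) :
    ∃ C : ℝ, ∀ s : ℝ, 1 < s → s ≤ 2 → ‖LL K 1 (1 : DirichletCharacter ℂ 1) ψ s‖ ≤ C := by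
  have h := fun C : ClassGroup (𝓞 K) => exists_cont K C
  choose g hg1 hg2 hg3 using h
  set F : ℂ → ℂ := fun z => ∑ C : ClassGroup (𝓞 K), ψ C * g C z with hF
  have hFan : AnalyticAt ℂ F 1 :=
    Finset.analyticAt_fun_sum _ fun C _ => analyticAt_const.mul (hg1 C)
  have hF1 : F 1 = 0 := by
    rw [hF]
    simp only [hg2]
    rw [← Finset.sum_mul, sum_hom_units_eq_zero ψ hψ, zero_mul]
  refine bdd_of_near K 1 ψ (MulChar.one_apply (isUnit_of_subsingleton _)) (dslope F 1)
    (continuousAt_dslope_same.2 hFan.differentiableAt) ?_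
  have h3 : ∀ᶠ z in 𝓝 (1 : ℂ), ∀ C : ClassGroup (𝓞 K),
      1 < z.re → g C z = (z - 1) * GC K (1 : DirichletCharacter ℂ 1) C z :=
    Filter.eventually_all.mpr fun C => hg3 C
  filter_upwards [h3] with z hz hz1
  have hz0 : z ≠ 1 := by
    rintro rfl
    simp at hz1
  have hz0' : z - 1 ≠ 0 := sub_ne_zero.mpr hz0
  rw [dslope_of_ne _ hz0, slope_def_field, hF1, sub_zero, hF]
  simp only
  rw [Finset.sum_div]
  refine Finset.sum_congr rfl fun C _ => ?_
  rw [hz C hz1]
  field_simp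

theorem result : S_bdd := by
  intro K _ _ q _ χ ψ hχ hψ h
  rcases h with ⟨h1, h2⟩ | ⟨u, hu, hχu⟩
  · subst h2
    subst h1
    exact case_one K ψ hψ
  · exact case_two K χ ψ hχ u hu hχu

end Pool.Agent.TH939.J1422
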