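import Pool.Agent.TH716.TW.Defs
import Pool.Agent.W45.Ch.Twist

/-! Boundedness of `LL`: the representation by classes, and the bound away from `1`. -/

set_option autoImplicit false
open Filter Topology NumberField NumberField.InfinitePlace NumberField.Units
open NumberField.Units.dirichletUnitTheorem Module nonZeroDivisors Ideal

namespace Pool.Agent.TH939.J1422

open Pool.Agent.TH716.TW Pool.Agent.H484R2 Pool.Agent.W45.Ch

variable (K : Type) [Field K] [NumberField K]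

/-- the series over one class -/
noncomputable def GC {q : ℕ} (χ : DirichletCharacter ℂ q) (C : ClassGroup (𝓞 K)) (s : ℂ) : ℂ :=
  (absNorm (rep K C).1 : ℂ) ^ s / (torsionOrder K : ℂ) *
    ∑' a, Wt K χ (rep K C).1 (xJ K (rep K C).1 (rep K C).2 a : 𝓞 K) *
      gJ K (rep K C).1 (rep K C).2 a s

lemma hasSum_LL {q : ℕ} (χ : DirichletCharacter ℂ q) (ψ : ClassGroup (𝓞 K) →* ℂ)
    (hχ : χ (-1) = 1) {s : ℝ} (hs : 1 < s) :
    HasSum (fun I : {I : Ideal (𝓞 K) // I ≠ ⊥} =>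
      ψ (ClassGroup.mk0 ⟨I.1, mem_nonZeroDivisors_of_ne_zero I.2⟩) *
      χ ((Ideal.absNorm I.1 : ℕ) : ZMod q) * ((Ideal.absNorm I.1 : ℝ) ^ (-s) : ℝ))
      (∑ C : ClassGroup (𝓞 K), ψ C * GC K χ C (s : ℂ)) := by
  classical
  have hs' : 1 < (s : ℂ).re := by simpa using hs
  have h := hasSum_sum (s := (Finset.univ : Finset (ClassGroup (𝓞 K))))
    (fun C _ => (hasSum_class K χ (rep K C).1 (rep K C).2 hχ C (rep_spec K C) hs').mul_left (ψ C))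
  have hf : (fun I : {I : Ideal (𝓞 K) // I ≠ ⊥} =>
      ψ (ClassGroup.mk0 ⟨I.1, mem_nonZeroDivisors_of_ne_zero I.2⟩) *
      χ ((Ideal.absNorm I.1 : ℕ) : ZMod q) * ((Ideal.absNorm I.1 : ℝ) ^ (-s) : ℝ)) =
      fun I : NZI K => ∑ C : ClassGroup (𝓞 K), ψ C * (if cls K I = C then
        χ ((absNorm I.1 : ℕ) : ZMod q) * (absNorm I.1 : ℂ) ^ (-(s : ℂ)) else 0) := by
    funext I
    simp only [mul_ite, mul_zero]
    rw [Finset.sum_ite_eq]
    simp only [Finset.mem_univ, if_true]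
    rw [Complex.ofReal_cpow (by positivity)]
    push_cast
    rw [mul_assoc]
    rfl
  rw [hf]
  exact h

lemma LL_eq {q : ℕ} (χ : DirichletCharacter ℂ q) (ψ : ClassGroup (𝓞 K) →* ℂ)
    (hχ : χ (-1) = 1) {s : ℝ} (hs : 1 < s) :
    LL K q χ ψ s = ∑ C : ClassGroup (𝓞 K), ψ C * GC K χ C (s : ℂ) :=
  (hasSum_LL K χ ψ hχ hs).tsum_eq

lemma norm_psi (ψ : ClassGroup (𝓞 K) →* ℂ) (C : ClassGroup (𝓞 K)) : ‖ψ C‖ = 1 := by
  have h : IsOfFinOrder C := isOfFinOrder_of_finite C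
  have h2 : IsOfFinOrder (ψ C) := ψ.isOfFinOrder h
  exact h2.norm_eq_one

/-- the bound away from `1` -/
lemma bdd_away {q : ℕ} (χ : DirichletCharacter ℂ q) (ψ : ClassGroup (𝓞 K) →* ℂ)
    {ε : ℝ} (hε : 0 < ε) : ∃ C : ℝ, ∀ s : ℝ, 1 + ε ≤ s → ‖LL K q χ ψ s‖ ≤ C := by
  have hs' : 1 < ((1 + ε : ℝ) : ℂ).re := by simpa using hε
  have hsum := (H484R2.hasSum_ideals K hs').summable.norm
  refine ⟨∑' I : NZI K, ‖(absNorm I.1 : ℂ) ^ (-((1 + ε : ℝ) : ℂ))‖, fun s hs => ?_⟩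
  unfold LL
  refine tsum_of_norm_bounded hsum.hasSum fun I => ?_
  have hI0 : absNorm I.1 ≠ 0 := by rw [Ne, absNorm_eq_zero_iff]; exact I.2
  have hI1 : (1 : ℝ) ≤ absNorm I.1 := by exact_mod_cast Nat.one_le_iff_ne_zero.mpr hI0
  rw [norm_mul, norm_mul, norm_psi, one_mul]
  have h1 := DirichletCharacter.norm_le_one χ ((absNorm I.1 : ℕ) : ZMod q)
  have h2 : ‖(((Ideal.absNorm I.1 : ℝ) ^ (-s) : ℝ) : ℂ)‖ = (Ideal.absNorm I.1 : ℝ) ^ (-s) := by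
    rw [Complex.norm_real, Real.norm_of_nonneg (by positivity)]
  have h3 : ‖(absNorm I.1 : ℂ) ^ (-((1 + ε : ℝ) : ℂ))‖ = (absNorm I.1 : ℝ) ^ (-(1 + ε)) := by
    rw [← Complex.ofReal_natCast, ← Complex.ofReal_neg, ← Complex.ofReal_cpow (by positivity),
      Complex.norm_real, Real.norm_of_nonneg (by positivity)]
  rw [h2, h3]
  calc _ ≤ 1 * (absNorm I.1 : ℝ) ^ (-s) := by gcongr
    _ = (absNorm I.1 : ℝ) ^ (-s) := one_mul _
    _ ≤ _ := Real.rpow_le_rpow_of_exponent_le hI1 (by linarith)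

/-- reduction to a neighbourhood of `1` -/
lemma bdd_of_near {q : ℕ} (χ : DirichletCharacter ℂ q) (ψ : ClassGroup (𝓞 K) →* ℂ)
    (hχ : χ (-1) = 1) (F : ℂ → ℂ) (hF : ContinuousAt F 1)
    (h : ∀ᶠ z in 𝓝 (1 : ℂ), 1 < z.re → F z = ∑ C : ClassGroup (𝓞 K), ψ C * GC K χ C z) :
    ∃ C : ℝ, ∀ s : ℝ, 1 < s → s ≤ 2 → ‖LL K q χ ψ s‖ ≤ C := by
  have h1 : ∀ᶠ z in 𝓝 (1 : ℂ), ‖F z‖ < ‖F 1‖ + 1 := by
    have := hF.norm
    exact this.eventually_lt_const (by linarith)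
  obtain ⟨ε, hε, hball⟩ := Metric.eventually_nhds_iff.mp (h.and h1)
  obtain ⟨C₁, hC₁⟩ := bdd_away K χ ψ (half_pos hε)
  refine ⟨max C₁ (‖F 1‖ + 1), fun s hs _ => ?_⟩
  by_cases hse : 1 + ε / 2 ≤ s
  · exact (hC₁ s hse).trans (le_max_left _ _)
  · have hd : dist (s : ℂ) 1 < ε := by
      rw [dist_eq_norm, ← Complex.ofReal_one, ← Complex.ofReal_sub, Complex.norm_real,
        Real.norm_eq_abs, abs_of_pos (by linarith)]
      linarith
    obtain ⟨h2, h3⟩ := hball hd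
    rw [LL_eq K χ ψ hχ hs, ← h2 (by simpa using hs)]
    exact h3.le.trans (le_max_right _ _)

end Pool.Agent.TH939.J1422
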