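import Pool.Agent.TH939.J1422.A

/-! Boundedness of `LL`: the case in which the character is nontrivial on `n`-th powers. -/

set_option autoImplicit false
open Filter Topology NumberField NumberField.InfinitePlace NumberField.Units
open NumberField.Units.dirichletUnitTheorem Module nonZeroDivisors Ideal

namespace Pool.Agent.TH939.J1422

open Pool.Agent.TH716.TW Pool.Agent.H484R2 Pool.Agent.W45.Ch

variable (K : Type) [Field K] [NumberField K]

lemma norm_zsmul (v : ℤ) (x : 𝓞 K) :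
    Algebra.norm ℤ (v • x) = v ^ (finrank ℚ K) * Algebra.norm ℤ x := by
  have h1 : v • x = algebraMap ℤ (𝓞 K) v * x := by rw [zsmul_eq_mul]; rfl
  rw [h1, map_mul, Algebra.norm_algebraMap_of_basis (RingOfIntegers.basis K),
    ← Module.finrank_eq_card_basis (RingOfIntegers.basis K), RingOfIntegers.rank K]

lemma Wt_zsmul {q : ℕ} (χ : DirichletCharacter ℂ q) (J : Ideal (𝓞 K)) (hJ : J ≠ ⊥) (v : ℕ)
    {x : 𝓞 K} (hx : x ∈ J) :
    Wt K χ J ((v : ℤ) • x) = χ (v : ZMod q) ^ (finrank ℚ K) * Wt K χ J x := by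
  unfold Wt
  have hN : absNorm J ≠ 0 := by rwa [Ne, absNorm_eq_zero_iff]
  obtain ⟨w, hw⟩ := dvd_norm K J hx
  have hN' : (absNorm J : ℤ) ≠ 0 := by exact_mod_cast hN
  rw [norm_zsmul, hw, Int.mul_ediv_cancel_left _ hN',
    show (v : ℤ) ^ (finrank ℚ K) * ((absNorm J : ℤ) * w) =
      (absNorm J : ℤ) * ((v : ℤ) ^ (finrank ℚ K) * w) by ring,
    Int.mul_ediv_cancel_left _ hN', Int.cast_mul, Int.cast_pow, Int.cast_natCast, map_mul, map_pow]

/-- multiplication by `v` on residues -/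
def mulV (ι : Type) (m v : ℕ) [NeZero m] (η : ι → Fin m) : ι → Fin m := fun i =>
  ⟨(v * (η i : ℕ)) % m, Nat.mod_lt _ (Nat.pos_of_ne_zero (NeZero.ne m))⟩

lemma mulV_inj (ι : Type) (m v : ℕ) [NeZero m] (hv : v.Coprime m) :
    Function.Injective (mulV ι m v) := by
  intro η η' h
  funext i
  have h1 := congrArg Fin.val (congrFun h i)
  simp only [mulV] at h1
  have h2 : v * (η i : ℕ) ≡ v * (η' i : ℕ) [MOD m] := h1
  have h3 : (η i : ℕ) ≡ (η' i : ℕ) [MOD m] :=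
    Nat.ModEq.cancel_left_of_coprime (by rw [Nat.gcd_comm]; exact hv) h2
  have h4 : (η i : ℕ) % m = (η' i : ℕ) % m := h3
  rw [Nat.mod_eq_of_lt (η i).2, Nat.mod_eq_of_lt (η' i).2] at h4
  exact Fin.ext h4

lemma mulV_dig (ι : Type) (m v : ℕ) [NeZero m] (η : ι → Fin m) :
    (v : ℤ) • Cont.dig m η = (m : ℤ) • (fun i => (((v * (η i : ℕ)) / m : ℕ) : ℤ)) +
      Cont.dig m (mulV ι m v η) := by
  funext i
  simp only [Pi.smul_apply, Pi.add_apply, Cont.dig, mulV, smul_eq_mul]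
  have := Nat.div_add_mod (v * (η i : ℕ)) m
  exact_mod_cast this.symm

lemma periodic {q : ℕ} (χ : DirichletCharacter ℂ q) (J : Ideal (𝓞 K)) (hJ : J ≠ ⊥)
    (a b : Idx K → ℤ) :
    Wt K χ J (xJ K J hJ ((((q * absNorm J : ℕ) : ℤ)) • a + b) : 𝓞 K) =
      Wt K χ J (xJ K J hJ b : 𝓞 K) := by
  have h1 : (xJ K J hJ ((((q * absNorm J : ℕ) : ℤ)) • a + b) : 𝓞 K) =
        (((q * absNorm J : ℕ) : ℤ)) • (xJ K J hJ a : 𝓞 K) + (xJ K J hJ b : 𝓞 K) := by
    unfold xJ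
    rw [map_add, map_smul]
    rfl
  rw [h1]
  exact Wt_congr K χ _ hJ (xJ K J hJ _).2 (xJ K J hJ a).2

lemma Wt_smul_xJ {q : ℕ} (χ : DirichletCharacter ℂ q) (J : Ideal (𝓞 K)) (hJ : J ≠ ⊥)
    (v : ℕ) (a : Idx K → ℤ) :
    Wt K χ J (xJ K J hJ ((v : ℤ) • a) : 𝓞 K) =
      χ (v : ZMod q) ^ (finrank ℚ K) * Wt K χ J (xJ K J hJ a : 𝓞 K) := by
  have h1 : (xJ K J hJ ((v : ℤ) • a) : 𝓞 K) = (v : ℤ) • (xJ K J hJ a : 𝓞 K) := by
    unfold xJ
    rw [map_smul]
    rfl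
  rw [h1]
  exact Wt_zsmul K χ J hJ v (xJ K J hJ a).2

lemma sum_Wt {q : ℕ} [NeZero q] (χ : DirichletCharacter ℂ q) (J : Ideal (𝓞 K)) (hJ : J ≠ ⊥)
    (u : ℕ) (hu : u.Coprime q) (hχu : χ (u : ZMod q) ^ (finrank ℚ K) ≠ 1) :
    ∑ η : Idx K → Fin (q * absNorm J),
      Wt K χ J (xJ K J hJ (Cont.dig (q * absNorm J) η) : 𝓞 K) = 0 := by
  have hN : absNorm J ≠ 0 := by rwa [Ne, absNorm_eq_zero_iff]
  have hM : NeZero (q * absNorm J) := ⟨mul_ne_zero (NeZero.ne q) hN⟩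
  have hu' : IsUnit (u : ZMod q) := (ZMod.isUnit_iff_coprime u q).mpr hu
  obtain ⟨v, hv1, hv2, hv3⟩ := Nat.forall_exists_prime_gt_and_eq_mod hu' (q * absNorm J)
  have hvc : v.Coprime (q * absNorm J) := by
    rw [Nat.Prime.coprime_iff_not_dvd hv2]
    intro hd
    have := Nat.le_of_dvd (Nat.pos_of_ne_zero (NeZero.ne _)) hd
    omega
  set S := ∑ η : Idx K → Fin (q * absNorm J),
      Wt K χ J (xJ K J hJ (Cont.dig (q * absNorm J) η) : 𝓞 K) with hS
  have hbij : Function.Bijective (mulV (Idx K) (q * absNorm J) v) :=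
    Finite.injective_iff_bijective.mp (mulV_inj (Idx K) _ v hvc)
  have h1 : S = χ (v : ZMod q) ^ (finrank ℚ K) * S := by
    conv_lhs => rw [hS]
    rw [← hbij.sum_comp (fun η => Wt K χ J (xJ K J hJ (Cont.dig (q * absNorm J) η) : 𝓞 K)), hS,
      Finset.mul_sum]
    refine Finset.sum_congr rfl fun η _ => ?_
    rw [← Wt_smul_xJ, mulV_dig, periodic]
  rw [hv3] at h1
  have h2 : (χ (u : ZMod q) ^ (finrank ℚ K) - 1) * S = 0 := by
    rw [sub_mul, one_mul, ← h1, sub_self]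
  rcases mul_eq_zero.mp h2 with h | h
  · exact absurd (sub_eq_zero.mp h) hχu
  · exact h

lemma analytic_GC {q : ℕ} [NeZero q] (χ : DirichletCharacter ℂ q) (C : ClassGroup (𝓞 K))
    (u : ℕ) (hu : u.Coprime q) (hχu : χ (u : ZMod q) ^ (finrank ℚ K) ≠ 1) :
    ∃ h : ℂ → ℂ, AnalyticAt ℂ h 1 ∧ ∀ z : ℂ, 1 < z.re → h z = GC K χ C z := by
  classical
  set J := (rep K C).1 with hJdef
  have hJ : J ≠ ⊥ := (rep K C).2
  have hN : absNorm J ≠ 0 := by rwa [Ne, absNorm_eq_zero_iff]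
  have hM : NeZero (q * absNorm J) := ⟨mul_ne_zero (NeZero.ne q) hN⟩
  have hm : 1 ≤ q * absNorm J := NeZero.one_le
  have D := dataJ K J hJ
  have hn1 : (1 : ℝ) ≤ Fintype.card (Idx K) := by exact_mod_cast D.card_pos
  have hre : 1 - 1 / (2 * (Fintype.card (Idx K) : ℝ)) < (1 : ℂ).re := by
    have : (0 : ℝ) < 1 / (2 * (Fintype.card (Idx K) : ℝ)) := by positivity
    rw [Complex.one_re]
    linarith
  have hJ0 : (absNorm J : ℂ) ≠ 0 := by exact_mod_cast hN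
  refine ⟨fun z => (absNorm J : ℂ) ^ z / (torsionOrder K : ℂ) *
    ∑ η : Idx K → Fin (q * absNorm J),
      Wt K χ J (xJ K J hJ (Cont.dig (q * absNorm J) η) : 𝓞 K) *
        Er (gJ K J hJ) (q * absNorm J) η z, ?_, fun z hz => ?_⟩
  · refine AnalyticAt.mul ?_ ?_
    · refine AnalyticAt.div ?_ analyticAt_const ?_
      · have hd : Differentiable ℂ fun z : ℂ => (absNorm J : ℂ) ^ z := by
          intro z
          exact DifferentiableAt.const_cpow differentiableAt_id (Or.inl hJ0)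
        exact hd.analyticAt _
      · exact_mod_cast torsionOrder_ne_zero K
    · refine Finset.analyticAt_fun_sum _ fun η _ => ?_
      exact analyticAt_const.mul (analytic_Er D _ hm η hre)
  · unfold GC
    have h1 := tsum_weighted D (q * absNorm J) hz
      (fun a => Wt K χ J (xJ K J hJ a : 𝓞 K)) (fun a => norm_Wt_le K χ _ _)
      (fun a η => periodic K χ J hJ a _)
    have h2 := sum_Wt K χ J hJ u hu hχu
    rw [h1]
    simp only [mul_add, Finset.sum_add_distrib]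
    rw [← Finset.sum_mul, h2, zero_mul, mul_zero, add_zero]

/-- the second case -/
lemma case_two {q : ℕ} [NeZero q] (χ : DirichletCharacter ℂ q) (ψ : ClassGroup (𝓞 K) →* ℂ)
    (hχ : χ (-1) = 1) (u : ℕ) (hu : u.Coprime q) (hχu : χ (u : ZMod q) ^ (finrank ℚ K) ≠ 1) :
    ∃ C : ℝ, ∀ s : ℝ, 1 < s → s ≤ 2 → ‖LL K q χ ψ s‖ ≤ C := by
  have h := fun C : ClassGroup (𝓞 K) => analytic_GC K χ C u hu hχu
  choose g hg1 hg2 using h
  refine bdd_of_near K χ ψ hχ (fun z => ∑ C : ClassGroup (𝓞 K), ψ C * g C z) ?_ ?_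
  · have : AnalyticAt ℂ (fun z => ∑ C : ClassGroup (𝓞 K), ψ C * g C z) 1 :=
      Finset.analyticAt_fun_sum _ fun C _ => analyticAt_const.mul (hg1 C)
    exact this.continuousAt
  · refine Eventually.of_forall fun z hz => ?_
    exact Finset.sum_congr rfl fun C _ => by rw [hg2 C z hz]

end Pool.Agent.TH939.J1422
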